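import Pool.Agent.H.MP_98514b_co.D

namespace Pool.Agent.Results.MP_98514b_co.Yes

variable {W : Type}

/-- every vertex has exactly three neighbours -/
def Cubic (G : SimpleGraph W) : Prop := ∀ v, (G.neighborSet v).ncard = 3

/-- no set of fewer than `k` edges can be deleted so as to leave two different components that
each contain a cycle -/
def CycConn (k : ℕ) (G : SimpleGraph W) : Prop :=
  ∀ F : Finset (Sym2 W), F.card < k →
    ¬ ∃ (u v : W) (c : (G.deleteEdges F).Walk u u) (d : (G.deleteEdges F).Walk v v),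
      c.IsCycle ∧ d.IsCycle ∧ ¬ (G.deleteEdges F).Reachable u v

/-- a proper 3-edge-colouring exists -/
def ThreeEdgeColourable (G : SimpleGraph W) : Prop :=
  ∃ c : Sym2 W → Fin 3, ∀ u v w, G.Adj u v → G.Adj u w → v ≠ w → c s(u, v) ≠ c s(u, w)

def Snark (G : SimpleGraph W) : Prop :=
  Cubic G ∧ CycConn 4 G ∧ 5 ≤ G.egirth ∧ ¬ ThreeEdgeColourable G

/-- `T` is the tree `T_i` with centre `x` -/
def IsTi (i : ℕ) (T : SimpleGraph W) (x : W) : Prop :=
  T.IsTree ∧ (∀ v, (T.neighborSet v).ncard = 1 ∨ (T.neighborSet v).ncard = 3) ∧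
    (T.neighborSet x).ncard = 3 ∧ ∀ v, (T.neighborSet v).ncard = 1 → T.dist x v = i

/-- the number of leaves of `T_i` -/
def ell (i : ℕ) : ℕ := 3 * 2 ^ (i - 1)

/-- `w` lies on the path of the tree `T` from `x` to `v` -/
def Below (T : SimpleGraph W) (x w v : W) : Prop := T.dist x w + T.dist w v = T.dist x v

/-- Rotation `T_i`-snark.  `leaf` lists the leaves of `T` by their labels.  The plane conditions
(1) and (2) are stated combinatorially: for every vertex `w` the labels of the leaves below `w`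
form an interval of `0, ..., ell i - 1` (without wrapping around). -/
def RotSnark (i : ℕ) (G : SimpleGraph W) : Prop :=
  Snark G ∧ ∃ (T : SimpleGraph W) (x : W), T ≤ G ∧ IsTi i T x ∧
    ∃ leaf : Fin (ell i) → W, Function.Injective leaf ∧
      (∀ v, (T.neighborSet v).ncard = 1 ↔ v ∈ Set.range leaf) ∧
      (∀ (w : W) (a b c : Fin (ell i)), a ≤ b → b ≤ c →
        Below T x w (leaf a) → Below T x w (leaf c) → Below T x w (leaf b)) ∧
      ∀ a b a' b' : Fin (ell i), a'.val = (a.val + ell i / 3) % ell i →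
        b'.val = (b.val + ell i / 3) % ell i → G.Adj (leaf a) (leaf b) → G.Adj (leaf a') (leaf b')

open Pool.Agent.H.MP_98514b_co in
theorem result : ∃ i : ℕ, 2 ≤ i ∧ ∃ (n : ℕ) (G : SimpleGraph (Fin n)),
    RotSnark i G ∧ ∃ k : ℕ, 6 ≤ k ∧ CycConn k G := by
  have c6 : ∀ k, k ≤ 6 → CycConn k G := by
    rintro k hk F hF ⟨u, v, c, d, hc, hd, huv⟩
    exact huv (cyc6 F (by omega) u v c d hc hd)
  have e6 : ell 6 = 96 := by norm_num [ell]
  have lt : ∀ a : Fin (ell 6), a.val < 96 := fun a => e6 ▸ a.2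
  refine ⟨6, by norm_num, 190, G, ⟨⟨cubic, c6 4 (by norm_num), le_trans (by norm_num) girth6,
    not_col⟩, T, 0, T_le, ⟨T_tree, ?_, ?_, ?_⟩,
    fun a => ⟨94 + a.val, by have := lt a; omega⟩, ?_, ?_, ?_, ?_⟩, 6, le_rfl, c6 6 le_rfl⟩
  · intro v
    rw [T_deg]
    split_ifs <;> simp
  · rw [T_deg]; simp
  · intro v hv
    rw [T_deg] at hv
    rw [T_dist]
    split_ifs at hv with h
    · omega
    · exact (fT v).2.2 (by omega)
  · intro a b h
    simp only [Fin.mk.injEq] at h
    exact Fin.ext (by omega)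
  · intro v
    rw [T_deg]
    have := v.2
    constructor
    · intro h
      split_ifs at h with k
      · omega
      · exact ⟨⟨v.val - 94, by omega⟩, Fin.ext (by show 94 + (v.val - 94) = v.val; omega)⟩
    · rintro ⟨a, rfl⟩
      rw [if_neg (by show ¬ 94 + a.val < 94; omega)]
  · intro w a b c hab hbc h1 h2
    exact interval w _ _ _ (Nat.le_add_right _ _) (Nat.add_le_add_left hab _)
      (Nat.add_le_add_left hbc _) h1 h2
  · intro a b a' b' ha hb h
    rw [adj_iff] at h ⊢
    have := rot a.val b.val (lt a) h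
    have ha' : a'.val = (a.val + 32) % 96 := ha
    have hb' : b'.val = (b.val + 32) % 96 := hb
    show 94 + b'.val ∈ nb (94 + a'.val)
    rw [ha', hb']
    exact this

end Pool.Agent.Results.MP_98514b_co.Yes
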